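import Pool.Agent.Y522.Stm5

/-!
# Blending of increasing functions: one variable, cutoffs (project SH2)
-/

set_option autoImplicit false

open Set Filter Topology Metric Function MeasureTheory
open scoped ContDiff

noncomputable section

namespace Pool.Agent.Y664.SH

open Pool.Agent.Y522

/-- one variable: blending two strictly increasing functions -/
theorem mono1 {T T₁ T₂ : ℝ} (h1 : 0 < T₁) (h12 : T₁ < T₂) (h2 : T₂ < T) {u v om : ℝ → ℝ}
    (hu : StrictMonoOn u (Icc (-T) T)) (hv : StrictMonoOn v (Icc (-T) T))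
    (h0 : ∀ t, 0 ≤ om t ∧ om t ≤ 1) (anti : ∀ s t, 0 ≤ s → s ≤ t → om t ≤ om s)
    (mono : ∀ s t, t ≤ 0 → s ≤ t → om s ≤ om t) (const : ∀ t, |t| ≤ T₁ → om t = om 0)
    (zero : ∀ t, T₂ ≤ |t| → om t = 0) (hle : ∀ t, T₁ ≤ t → t ≤ T₂ → v t ≤ u t)
    (hge : ∀ t, -T₂ ≤ t → t ≤ -T₁ → u t ≤ v t) :
    StrictMonoOn (fun t => u t + om t * (v t - u t)) (Icc (-T) T) := by
  have pos : ∀ s ∈ Icc (-T) T, ∀ t ∈ Icc (-T) T, s < t → ∀ a : ℝ, 0 ≤ a → a ≤ 1 →
      0 < (1 - a) * (u t - u s) + a * (v t - v s) := by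
    intro s hs t ht hst a ha ha1
    have e1 := sub_pos.2 (hu hs ht hst)
    have e2 := sub_pos.2 (hv hs ht hst)
    rcases ha.eq_or_lt with rfl | ha'
    · simpa using e1
    · have := mul_pos ha' e2
      have := mul_nonneg (sub_nonneg.2 ha1) e1.le
      linarith
  have right : StrictMonoOn (fun t => u t + om t * (v t - u t)) (Icc T₁ T) := by
    intro s hs t ht hst
    have hs' : s ∈ Icc (-T) T := ⟨by linarith [hs.1], hs.2⟩
    have ht' : t ∈ Icc (-T) T := ⟨by linarith [ht.1], ht.2⟩
    have e := pos s hs' t ht' hst (om t) (h0 t).1 (h0 t).2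
    have e3 : 0 ≤ (om t - om s) * (v s - u s) := by
      rcases le_or_gt s T₂ with h | h
      · exact mul_nonneg_of_nonpos_of_nonpos
          (sub_nonpos.2 (anti s t (by linarith [hs.1]) hst.le)) (sub_nonpos.2 (hle s hs.1 h))
      · have a1 : om s = 0 := zero s (h.le.trans (le_abs_self s))
        have a2 : om t = 0 := zero t ((h.trans hst).le.trans (le_abs_self t))
        rw [a1, a2]; simp
    change u s + om s * (v s - u s) < u t + om t * (v t - u t)
    nlinarith
  have left : StrictMonoOn (fun t => u t + om t * (v t - u t)) (Icc (-T) (-T₁)) := by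
    intro s hs t ht hst
    have hs' : s ∈ Icc (-T) T := ⟨hs.1, by linarith [hs.2]⟩
    have ht' : t ∈ Icc (-T) T := ⟨ht.1, by linarith [ht.2]⟩
    have e := pos s hs' t ht' hst (om s) (h0 s).1 (h0 s).2
    have e3 : 0 ≤ (om t - om s) * (v t - u t) := by
      rcases le_or_gt (-T₂) t with h | h
      · exact mul_nonneg (sub_nonneg.2 (mono s t (by linarith [ht.2]) hst.le))
          (sub_nonneg.2 (hge t h ht.2))
      · have a1 : om s = 0 := zero s (by
          have := neg_le_abs s
          linarith)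
        have a2 : om t = 0 := zero t (by
          have := neg_le_abs t
          linarith)
        rw [a1, a2]; simp
    change u s + om s * (v s - u s) < u t + om t * (v t - u t)
    nlinarith
  have mid : StrictMonoOn (fun t => u t + om t * (v t - u t)) (Icc (-T₁) T₁) := by
    intro s hs t ht hst
    have hs' : s ∈ Icc (-T) T := ⟨by linarith [hs.1], by linarith [hs.2]⟩
    have ht' : t ∈ Icc (-T) T := ⟨by linarith [ht.1], by linarith [ht.2]⟩
    have e := pos s hs' t ht' hst (om 0) (h0 0).1 (h0 0).2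
    change u s + om s * (v s - u s) < u t + om t * (v t - u t)
    rw [const s (abs_le.2 hs), const t (abs_le.2 ht)]
    nlinarith
  have g1 := (left.union mid (isGreatest_Icc (by linarith)) (isLeast_Icc (by linarith))).union right
    (c := T₁) ?_ (isLeast_Icc (by linarith))
  · rw [Icc_union_Icc_eq_Icc (by linarith) (by linarith),
      Icc_union_Icc_eq_Icc (by linarith) (by linarith)] at g1
    exact g1
  · rw [Icc_union_Icc_eq_Icc (by linarith) (by linarith)]
    exact isGreatest_Icc (by linarith)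

/-- the cutoff -/
def cut (r s t : ℝ) : ℝ := Real.smoothTransition ((s ^ 2 - t) / (s ^ 2 - r ^ 2))

section cut
variable {r s : ℝ} (hr : 0 < r) (hrs : r < s)
include hr hrs

lemma cut_den : 0 < s ^ 2 - r ^ 2 := by nlinarith

lemma cut_one {t : ℝ} (ht : t ≤ r ^ 2) : cut r s t = 1 := by
  unfold cut
  apply Real.smoothTransition.one_of_one_le
  rw [le_div_iff₀ (cut_den hr hrs)]
  linarith

lemma cut_zero {t : ℝ} (ht : s ^ 2 ≤ t) : cut r s t = 0 := by
  unfold cut
  apply Real.smoothTransition.zero_of_nonpos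
  exact div_nonpos_of_nonpos_of_nonneg (by linarith) (cut_den hr hrs).le

lemma cut_anti {t t' : ℝ} (h : t ≤ t') : cut r s t' ≤ cut r s t := by
  unfold cut
  apply Real.smoothTransition.monotone
  exact div_le_div_of_nonneg_right (by linarith) (cut_den hr hrs).le

omit hr hrs in
lemma cut_mem (t : ℝ) : 0 ≤ cut r s t ∧ cut r s t ≤ 1 :=
  ⟨Real.smoothTransition.nonneg _, Real.smoothTransition.le_one _⟩

omit hr hrs in
lemma cut_smooth : ContDiff ℝ ∞ (cut r s) := by
  unfold cut
  exact Real.smoothTransition.contDiff.comp (by fun_prop)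

end cut

/-- the cutoff function on the box -/
def W {m : ℕ} (r s t t' : ℝ) (z : E (m + 1)) : ℝ := cut t t' ((z 0) ^ 2) * cut r s (‖tl z‖ ^ 2)

lemma contDiff_head {m : ℕ} {n : WithTop ℕ∞} : ContDiff ℝ n (fun z : E (m + 1) => z 0) := by
  fun_prop

lemma W_smooth {m : ℕ} {r s t t' : ℝ} : ContDiff ℝ ∞ (W (m := m) r s t t') := by
  unfold W
  refine (cut_smooth.comp (contDiff_head.pow 2)).mul (cut_smooth.comp ?_)
  exact (contDiff_norm_sq ℝ).comp (tl (m := m)).contDiff

lemma W_mem {m : ℕ} {r s t t' : ℝ} (z : E (m + 1)) : 0 ≤ W r s t t' z ∧ W r s t t' z ≤ 1 :=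
  ⟨mul_nonneg (cut_mem _).1 (cut_mem _).1, mul_le_one₀ (cut_mem _).2 (cut_mem _).1 (cut_mem _).2⟩

end Pool.Agent.Y664.SH
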