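import Pool.Agent.Y522.Stm5

/-!
# Averages with a smooth bump (project SH2)
-/

set_option autoImplicit false

open Set Filter Topology Metric Function MeasureTheory
open scoped ContDiff Convolution

noncomputable section

namespace Pool.Agent.Y664.SH

open Pool.Agent.Y522

variable {n : ℕ}

/-- the bump -/
def bp (n : ℕ) (δ : ℝ) (hδ : 0 < δ) : ContDiffBump (0 : E n) :=
  ⟨δ / 2, δ, half_pos hδ, half_lt_self hδ⟩

/-- the average -/
def cv (δ : ℝ) (hδ : 0 < δ) (G : E n → ℝ) (x : E n) : ℝ :=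
  ∫ t, (bp n δ hδ).normed volume t * G (x - t)

lemma cv_smooth {δ : ℝ} (hδ : 0 < δ) {G : E n → ℝ} (hG : Continuous G) :
    ContDiff ℝ ∞ (cv δ hδ G) := by
  have h : cv δ hδ G = ((bp n δ hδ).normed volume ⋆[ContinuousLinearMap.lsmul ℝ ℝ, volume] G) := by
    funext x
    rw [convolution_def]
    rfl
  rw [h]
  exact (bp n δ hδ).hasCompactSupport_normed.contDiff_convolution_left _
    (bp n δ hδ).contDiff_normed hG.locallyIntegrable

lemma int_mul {δ : ℝ} (hδ : 0 < δ) {F : E n → ℝ} (hF : Continuous F) :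
    Integrable (fun t => (bp n δ hδ).normed volume t * F t) := by
  apply Continuous.integrable_of_hasCompactSupport
  · exact (bp n δ hδ).continuous_normed.mul hF
  · exact (bp n δ hδ).hasCompactSupport_normed.mul_right

lemma avg_le {δ : ℝ} (hδ : 0 < δ) {F : E n → ℝ} (hF : Continuous F) {b : ℝ}
    (h : ∀ t, ‖t‖ < δ → F t ≤ b) : ∫ t, (bp n δ hδ).normed volume t * F t ≤ b := by
  have h1 : ∫ t, (bp n δ hδ).normed volume t * b = b := by
    rw [integral_mul_const, (bp n δ hδ).integral_normed, one_mul]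
  rw [← h1]
  refine integral_mono (int_mul hδ hF) (int_mul hδ continuous_const) fun t => ?_
  by_cases ht : ‖t‖ < δ
  · exact mul_le_mul_of_nonneg_left (h t ht) ((bp n δ hδ).nonneg_normed t)
  · have h2 : (bp n δ hδ).normed volume t = 0 := by
      by_contra h3
      have h4 : t ∈ Function.support ((bp n δ hδ).normed volume) := h3
      rw [(bp n δ hδ).support_normed_eq, mem_ball_zero_iff] at h4
      exact ht h4
    simp [h2]

lemma le_avg {δ : ℝ} (hδ : 0 < δ) {F : E n → ℝ} (hF : Continuous F) {b : ℝ}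
    (h : ∀ t, ‖t‖ < δ → b ≤ F t) : b ≤ ∫ t, (bp n δ hδ).normed volume t * F t := by
  have h1 := avg_le hδ (F := fun t => -F t) hF.neg (b := -b) fun t ht => neg_le_neg (h t ht)
  simp only [mul_neg, integral_neg] at h1
  linarith

lemma cv_sub {δ : ℝ} (hδ : 0 < δ) {G : E n → ℝ} (hG : Continuous G) (x y : E n) (c : ℝ) :
    cv δ hδ G x - cv δ hδ G y - c =
      ∫ t, (bp n δ hδ).normed volume t * (G (x - t) - G (y - t) - c) := by
  have h1 : ∫ t, (bp n δ hδ).normed volume t * c = c := by
    rw [integral_mul_const, (bp n δ hδ).integral_normed, one_mul]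
  have i1 := int_mul hδ (F := fun t => G (x - t)) (hG.comp (continuous_const.sub continuous_id))
  have i2 := int_mul hδ (F := fun t => G (y - t)) (hG.comp (continuous_const.sub continuous_id))
  have i3 := int_mul (n := n) hδ (F := fun _ => c) continuous_const
  unfold cv
  conv_lhs => rw [← h1]
  have e1 := integral_sub i1 i2
  have e2 := integral_sub (i1.sub i2) i3
  simp only [Pi.sub_apply] at e2
  rw [← e1, ← e2]
  congr 1
  funext t
  ring

lemma cv_near {δ : ℝ} (hδ : 0 < δ) {G : E n → ℝ} (hG : Continuous G) {x y : E n} {c K : ℝ}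
    (h : ∀ t, ‖t‖ < δ → |G (x - t) - G (y - t) - c| ≤ K) :
    |cv δ hδ G x - cv δ hδ G y - c| ≤ K := by
  have hF : Continuous (fun t => G (x - t) - G (y - t) - c) := by fun_prop
  rw [cv_sub hδ hG, abs_le]
  exact ⟨le_avg hδ hF fun t ht => (abs_le.1 (h t ht)).1,
    avg_le hδ hF fun t ht => (abs_le.1 (h t ht)).2⟩

lemma cv_close {δ : ℝ} (hδ : 0 < δ) {G : E n → ℝ} (hG : Continuous G) {x : E n} {K : ℝ}
    (h : ∀ t, ‖t‖ < δ → |G (x - t) - G x| ≤ K) : |cv δ hδ G x - G x| ≤ K := by
  have h1 : cv δ hδ G x - G x = ∫ t, (bp n δ hδ).normed volume t * (G (x - t) - G x) := by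
    have h2 : ∫ t, (bp n δ hδ).normed volume t * G x = G x := by
      rw [integral_mul_const, (bp n δ hδ).integral_normed, one_mul]
    have i1 := int_mul hδ (F := fun t => G (x - t)) (hG.comp (continuous_const.sub continuous_id))
    have i3 := int_mul (n := n) hδ (F := fun _ => G x) continuous_const
    unfold cv
    conv_lhs => rw [← h2]
    rw [← integral_sub i1 i3]
    congr 1
    funext t
    ring
  have hF : Continuous (fun t => G (x - t) - G x) := by fun_prop
  rw [h1, abs_le]
  exact ⟨le_avg hδ hF fun t ht => (abs_le.1 (h t ht)).1,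
    avg_le hδ hF fun t ht => (abs_le.1 (h t ht)).2⟩

lemma cv_mono {δ : ℝ} (hδ : 0 < δ) {G : E n → ℝ} (hG : Continuous G) {x y : E n}
    (h : ∀ t, G (x - t) ≤ G (y - t)) : cv δ hδ G x ≤ cv δ hδ G y := by
  have h1 := cv_sub hδ hG x y 0
  have hF : Continuous (fun t => G (x - t) - G (y - t) - 0) := by fun_prop
  have h2 := avg_le hδ hF (b := 0) fun t _ => by linarith [h t]
  rw [← h1] at h2
  linarith

/-- the derivative of the average at a point near which `G` is `C¹` -/
lemma cv_fderiv {δ : ℝ} (hδ : 0 < δ) {G : E n → ℝ} (hG : Continuous G) {y : E n} {K : ℝ}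
    (hK : 0 ≤ K) (h : ∀ s : E n, ‖s‖ < 2 * δ → DifferentiableAt ℝ G (y + s) ∧
      ‖fderiv ℝ G (y + s) - fderiv ℝ G y‖ ≤ K) :
    ‖fderiv ℝ (cv δ hδ G) y - fderiv ℝ G y‖ ≤ K := by
  have h1 : HasFDerivAt (fun x => cv δ hδ G x - fderiv ℝ G y x)
      (fderiv ℝ (cv δ hδ G) y - fderiv ℝ G y) y :=
    (((cv_smooth hδ hG).differentiable (by simp)) y).hasFDerivAt.sub (fderiv ℝ G y).hasFDerivAt
  refine h1.le_of_lip' hK ?_
  filter_upwards [ball_mem_nhds y hδ] with x hx
  have hx' : ‖x - y‖ < δ := by rwa [mem_ball, dist_eq_norm] at hx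
  have h2 : cv δ hδ G x - fderiv ℝ G y x - (cv δ hδ G y - fderiv ℝ G y y) =
      cv δ hδ G x - cv δ hδ G y - fderiv ℝ G y (x - y) := by
    rw [map_sub]; ring
  rw [h2, Real.norm_eq_abs]
  refine cv_near hδ hG fun t ht => ?_
  have h3 := (convex_ball (y : E n) (2 * δ)).norm_image_sub_le_of_norm_fderiv_le'
    (f := G) (φ := fderiv ℝ G y) (C := K) (x := y - t) (y := x - t) (𝕜 := ℝ)
    (fun z hz => by
      have := (h (z - y) (by rwa [mem_ball, dist_eq_norm] at hz)).1
      rwa [add_sub_cancel] at this)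
    (fun z hz => by
      have := (h (z - y) (by rwa [mem_ball, dist_eq_norm] at hz)).2
      rwa [add_sub_cancel] at this)
    (by
      rw [mem_ball, dist_eq_norm]
      have : y - t - y = -t := by abel
      rw [this, norm_neg]
      linarith)
    (by
      rw [mem_ball, dist_eq_norm]
      have : x - t - y = (x - y) - t := by abel
      rw [this]
      exact (norm_sub_le _ _).trans_lt (by linarith))
  have h4 : x - t - (y - t) = x - y := by abel
  rw [h4, Real.norm_eq_abs] at h3
  exact h3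

end Pool.Agent.Y664.SH
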