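import Pool.Agent.Y664.SH.B1
import Pool.Agent.Y664.SH.B2

/-!
# The smooth approximation used in the blending lemma (project SH2)
-/

set_option autoImplicit false

open Set Filter Topology Metric Function MeasureTheory
open scoped ContDiff

noncomputable section

namespace Pool.Agent.Y664.SH

open Pool.Agent.Y522

variable {m : ℕ}

/-- the retraction onto the box -/
def clampz (R T : ℝ) (z : E (m + 1)) : E (m + 1) :=
  cn (max (-T) (min T (z 0))) ((R / max R ‖tl z‖) • tl z)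

lemma clampz_mem {R T : ℝ} (hR : 0 < R) (hT : 0 < T) (z : E (m + 1)) :
    clampz R T z ∈ box m R T := by
  have hmax : 0 < max R ‖tl z‖ := lt_max_of_lt_left hR
  refine ⟨?_, ?_⟩
  · unfold clampz
    rw [tl_cn, norm_smul, Real.norm_eq_abs, abs_of_nonneg (by positivity), div_mul_eq_mul_div,
      div_le_iff₀ hmax]
    exact mul_le_mul_of_nonneg_left (le_max_right _ _) hR.le
  · unfold clampz
    rw [cn_zero, abs_le]
    exact ⟨le_max_left _ _, max_le (by linarith) (min_le_left _ _)⟩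

lemma clampz_id {R T : ℝ} (hR : 0 < R) {z : E (m + 1)} (hz : z ∈ box m R T) :
    clampz R T z = z := by
  unfold clampz
  rw [max_eq_left hz.1, div_self hR.ne', one_smul, min_eq_right (abs_le.1 hz.2).2,
    max_eq_right (abs_le.1 hz.2).1, cn_tl]

lemma clampz_cont {R T : ℝ} (hR : 0 < R) : Continuous (clampz (m := m) R T) := by
  have h1 : Continuous fun z : E (m + 1) =>
      ((max (-T) (min T (z 0)) : ℝ), ((R / max R ‖tl z‖) • tl z : E m)) := by
    refine Continuous.prodMk ?_ ?_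
    · exact continuous_const.max (continuous_const.min continuous_head)
    · refine Continuous.smul (continuous_const.div
        (continuous_const.max (tl (m := m)).continuous.norm) fun z => ?_) (tl (m := m)).continuous
      exact (lt_max_of_lt_left hR).ne'
  exact continuous_cn.comp h1

/-- the first coordinate -/
def hd : E (m + 1) →L[ℝ] ℝ := EuclideanSpace.proj 0

@[simp] lemma hd_apply (z : E (m + 1)) : hd z = z 0 := rfl

lemma hd_norm : ‖(hd : E (m + 1) →L[ℝ] ℝ)‖ ≤ 1 := by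
  refine ContinuousLinearMap.opNorm_le_bound _ zero_le_one fun z => ?_
  rw [hd_apply, Real.norm_eq_abs, one_mul]
  exact abs_head_le z

/-- scaling of the first coordinate -/
def sc (c : ℝ) : E (m + 1) →L[ℝ] E (m + 1) := inc.comp tl + c • (hd.smulRight e0)

lemma sc_apply (c : ℝ) (z : E (m + 1)) : sc c z = cn (c * z 0) (tl z) := by
  rw [cn_eq]
  change cn 0 (tl z) + c • (z 0 • e0) = _
  rw [smul_smul]
  exact add_comm _ _

lemma sc_one (z : E (m + 1)) : sc 1 z = z := by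
  rw [sc_apply, one_mul, cn_tl]

lemma sc_one' : (sc 1 : E (m + 1) →L[ℝ] E (m + 1)) = ContinuousLinearMap.id ℝ _ := by
  ext1 z
  exact sc_one z

lemma sc_cont : Continuous (fun c : ℝ => (sc c : E (m + 1) →L[ℝ] E (m + 1))) := by
  unfold sc
  exact continuous_const.add (continuous_id.smul continuous_const)

lemma sc_cont' : Continuous (fun p : ℝ × E (m + 1) => sc p.1 p.2) :=
  (sc_cont.comp continuous_fst).clm_apply continuous_snd

lemma sc_norm {c : ℝ} (h0 : 0 ≤ c) (h1 : c ≤ 1) : ‖(sc c : E (m + 1) →L[ℝ] E (m + 1))‖ ≤ 1 := by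
  refine ContinuousLinearMap.opNorm_le_bound _ zero_le_one fun z => ?_
  rw [one_mul, sc_apply]
  have h2 := norm_cn_sq (c * z 0) (tl z)
  have h3 := norm_sq_split z
  have h4 : (c * z 0) ^ 2 ≤ (z 0) ^ 2 := by
    rw [mul_pow]
    have : c ^ 2 ≤ 1 := pow_le_one₀ h0 h1
    nlinarith [sq_nonneg (z 0)]
  exact le_of_sq_le_sq (by linarith) (norm_nonneg _)

lemma sc_mem {c R T : ℝ} (h0 : 0 ≤ c) (h1 : c ≤ 1) {z : E (m + 1)} (hz : z ∈ box m R T) :
    sc c z ∈ box m R T := by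
  rw [sc_apply]
  refine ⟨by simpa using hz.1, ?_⟩
  rw [cn_zero, abs_mul, abs_of_nonneg h0]
  exact (mul_le_of_le_one_left (abs_nonneg _) h1).trans hz.2

lemma near_box {R T R2 T2 : ℝ} (hR : R2 < R) (hT : T2 < T) {z : E (m + 1)}
    (hz : z ∈ box m R2 T2) : ∀ᶠ y in 𝓝 z, y ∈ box m R T := by
  have h1 : ∀ᶠ y in 𝓝 z, ‖tl y‖ < R :=
    ((tl (m := m)).continuous.norm.tendsto z).eventually_lt_const (hz.1.trans_lt hR)
  have h2 : ∀ᶠ y : E (m + 1) in 𝓝 z, |y 0| < T :=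
    (continuous_head.abs.tendsto z).eventually_lt_const (hz.2.trans_lt hT)
  filter_upwards [h1, h2] with y hy1 hy2
  exact ⟨hy1.le, hy2.le⟩

/-- the properties of the extension -/
theorem extG {R T : ℝ} (hR : 0 < R) (hT : 0 < T) {g : E (m + 1) → ℝ}
    (hg : ContinuousOn g (box m R T))
    (hm : ∀ z ∈ box m R T, ∀ z' ∈ box m R T, tl z = tl z' → z 0 < z' 0 → g z < g z') :
    ∃ G : E (m + 1) → ℝ, Continuous G ∧ (∀ z ∈ box m R T, G z = g z) ∧
      ∀ z z' : E (m + 1), tl z = tl z' → z 0 ≤ z' 0 → G z ≤ G z' := by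
  refine ⟨fun z => g (clampz R T z), hg.comp_continuous (clampz_cont hR)
    (clampz_mem hR hT), fun z hz => congrArg g (clampz_id hR hz), ?_⟩
  intro z z' h1 h2
  change g (clampz R T z) ≤ g (clampz R T z')
  have h3 : max (-T) (min T (z 0)) ≤ max (-T) (min T (z' 0)) :=
    max_le_max le_rfl (min_le_min le_rfl h2)
  rcases h3.eq_or_lt with h | h
  · have : clampz R T z = clampz R T z' := by
      unfold clampz
      rw [h, h1]
    rw [this]
  · refine (hm _ (clampz_mem hR hT z) _ (clampz_mem hR hT z') ?_ ?_).le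
    · unfold clampz
      rw [tl_cn, tl_cn, h1]
    · unfold clampz
      rw [cn_zero, cn_zero]
      exact h

theorem exc {R T R2 T2 : ℝ} (hR : R2 < R) (hT : T2 < T) {g G : E (m + 1) → ℝ}
    (hG : Continuous G) (hGg : ∀ z ∈ box m R T, G z = g z) {O : Set (E (m + 1))}
    (hO : IsCompact O) (hOs : ∀ z ∈ O, ∀ᶠ y in 𝓝 z, ContDiffAt ℝ ∞ g y) {κ : ℝ} (hκ : 0 < κ) :
    ∃ c : ℝ, 0 < c ∧ c < 1 ∧ (∀ z ∈ box m R2 T2, |G (sc c z) - G z| < κ) ∧
      ∀ z ∈ O ∩ box m R2 T2, (∀ᶠ y in 𝓝 (sc c z), ContDiffAt ℝ ∞ G y) ∧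
        ‖(fderiv ℝ G (sc c z)).comp (sc c) - fderiv ℝ g z‖ < κ := by
  have near : ∀ z ∈ box m R2 T2, G =ᶠ[𝓝 z] g := by
    intro z hz
    filter_upwards [near_box hR hT hz] with y hy
    exact hGg y hy
  have hD : ∀ z ∈ O ∩ box m R2 T2, ∀ᶠ y in 𝓝 z, ContDiffAt ℝ ∞ G y := by
    intro z hz
    filter_upwards [hOs z hz.1, (near z hz.2).eventuallyEq_nhds] with y h1 h2
    exact h1.congr_of_eventuallyEq h2
  have hF : ∀ z ∈ O ∩ box m R2 T2, fderiv ℝ G z = fderiv ℝ g z := fun z hz =>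
    (near z hz.2).fderiv_eq
  have e1 : ∀ᶠ c : ℝ in 𝓝 1, ∀ z ∈ box m R2 T2, |G (sc c z) - G z| < κ := by
    refine (isCompact_box R2 T2).eventually_forall_of_forall_eventually fun z _ => ?_
    have hc : Continuous fun p : ℝ × E (m + 1) => |G (sc p.1 p.2) - G p.2| :=
      ((hG.comp sc_cont').sub (hG.comp continuous_snd)).abs
    refine (hc.tendsto (1, z)).eventually_lt_const ?_
    simpa [sc_one] using hκ
  have e2 : ∀ᶠ c : ℝ in 𝓝 1, ∀ z ∈ O ∩ box m R2 T2,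
      (∀ᶠ y in 𝓝 (sc c z), ContDiffAt ℝ ∞ G y) ∧
        ‖(fderiv ℝ G (sc c z)).comp (sc c) - fderiv ℝ g z‖ < κ := by
    have hK : IsCompact (O ∩ box m R2 T2) := hO.inter_right (isCompact_box R2 T2).isClosed
    have e3 : ∀ᶠ c : ℝ in 𝓝 1, ∀ z ∈ O ∩ box m R2 T2,
      (∀ᶠ y in 𝓝 (sc c z), ContDiffAt ℝ ∞ G y) ∧
        ‖(fderiv ℝ G (sc c z)).comp (sc c) - fderiv ℝ G z‖ < κ := by
      refine hK.eventually_forall_of_forall_eventually fun z hz => ?_
      have h1 : Tendsto (fun p : ℝ × E (m + 1) => sc p.1 p.2) (𝓝 (1, z)) (𝓝 z) := by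
        have := (sc_cont' (m := m)).tendsto (1, z)
        simpa only [sc_one] using this
      have h2 : ContinuousAt (fderiv ℝ G) z :=
        ((hD z hz).self_of_nhds.fderiv_right (m := 0) (by simp)).continuousAt
      have h3 : Tendsto (fun p : ℝ × E (m + 1) => (fderiv ℝ G (sc p.1 p.2)).comp (sc p.1) -
          fderiv ℝ G p.2) (𝓝 (1, z)) (𝓝 ((fderiv ℝ G z).comp (sc 1) - fderiv ℝ G z)) := by
        have h4 : Tendsto (fun p : ℝ × E (m + 1) => fderiv ℝ G (sc p.1 p.2)) (𝓝 (1, z))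
            (𝓝 (fderiv ℝ G z)) := h2.tendsto.comp h1
        have h5 : Tendsto (fun p : ℝ × E (m + 1) => fderiv ℝ G p.2) (𝓝 (1, z))
            (𝓝 (fderiv ℝ G z)) := h2.tendsto.comp (continuous_snd.tendsto (1, z))
        have h6 : Tendsto (fun p : ℝ × E (m + 1) => (sc p.1 : E (m + 1) →L[ℝ] E (m + 1)))
            (𝓝 (1, z)) (𝓝 (sc 1)) := (sc_cont.comp continuous_fst).tendsto (1, z)
        have h8 : Continuous fun q : (E (m + 1) →L[ℝ] ℝ) × (E (m + 1) →L[ℝ] E (m + 1)) =>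
            q.1.comp q.2 := continuous_fst.clm_comp continuous_snd
        have h9 := (h8.tendsto (fderiv ℝ G z, sc 1)).comp (h4.prodMk_nhds h6)
        exact h9.sub h5
      rw [sc_one', ContinuousLinearMap.comp_id, sub_self] at h3
      refine (h1.eventually (hD z hz).eventually_nhds).and ?_
      have h7 := h3.norm
      rw [norm_zero] at h7
      exact h7.eventually_lt_const hκ
    filter_upwards [e3] with c hc z hz
    rw [← hF z hz]
    exact hc z hz
  have e4 : ∀ᶠ c : ℝ in 𝓝[<] 1, 0 < c ∧ c < 1 := by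
    have h1 : ∀ᶠ c : ℝ in 𝓝[<] 1, 0 < c :=
      (lt_mem_nhds (zero_lt_one)).filter_mono nhdsWithin_le_nhds
    filter_upwards [h1, self_mem_nhdsWithin] with c h2 h3
    exact ⟨h2, h3⟩
  obtain ⟨c, ⟨hc0, hc1⟩, hc2, hc3⟩ := (e4.and ((e1.and e2).filter_mono nhdsWithin_le_nhds)).exists
  exact ⟨c, hc0, hc1, hc2, hc3⟩

theorem exmu {R T R2 T2 Ta : ℝ} (hR : R2 < R) (hTa : 0 < Ta) (hT : T2 < T) {g G : E (m + 1) → ℝ}
    (hG : Continuous G) (hGg : ∀ z ∈ box m R T, G z = g z)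
    (hm : ∀ z ∈ box m R T, ∀ z' ∈ box m R T, tl z = tl z' → z 0 < z' 0 → g z < g z')
    {c : ℝ} (h0 : 0 < c) (h1 : c < 1) :
    ∃ μ : ℝ, 0 < μ ∧ (∀ z ∈ box m R2 T2, Ta ≤ z 0 → μ ≤ G z - G (sc c z)) ∧
      ∀ z ∈ box m R2 T2, z 0 ≤ -Ta → μ ≤ G (sc c z) - G z := by
  have hb : ∀ z ∈ box m R2 T2, z ∈ box m R T := fun z hz => ⟨hz.1.trans hR.le, hz.2.trans hT.le⟩
  have hsc : Continuous fun z : E (m + 1) => sc c z := (sc c).continuous
  have hK1 : IsCompact (box m R2 T2 ∩ {z : E (m + 1) | Ta ≤ z 0}) :=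
    (isCompact_box R2 T2).inter_right (isClosed_le continuous_const continuous_head)
  have hK2 : IsCompact (box m R2 T2 ∩ {z : E (m + 1) | z 0 ≤ -Ta}) :=
    (isCompact_box R2 T2).inter_right (isClosed_le continuous_head continuous_const)
  have e1 : ∀ᶠ μ : ℝ in 𝓝 0, ∀ z ∈ box m R2 T2 ∩ {z : E (m + 1) | Ta ≤ z 0},
      μ < G z - G (sc c z) := by
    refine hK1.eventually_forall_of_forall_eventually fun z hz => ?_
    have hc : Continuous fun p : ℝ × E (m + 1) => G p.2 - G (sc c p.2) - p.1 := by fun_prop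
    have h2 : 0 < G z - G (sc c z) - 0 := by
      rw [sub_zero, hGg z (hb z hz.1), hGg _ (sc_mem h0.le h1.le (hb z hz.1)), sub_pos]
      refine hm _ (sc_mem h0.le h1.le (hb z hz.1)) _ (hb z hz.1) (by rw [sc_apply, tl_cn]) ?_
      rw [sc_apply, cn_zero]
      have : 0 < z 0 := hTa.trans_le hz.2
      nlinarith
    filter_upwards [(hc.tendsto (0, z)).eventually_const_lt h2] with p hp
    linarith
  have e2 : ∀ᶠ μ : ℝ in 𝓝 0, ∀ z ∈ box m R2 T2 ∩ {z : E (m + 1) | z 0 ≤ -Ta},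
      μ < G (sc c z) - G z := by
    refine hK2.eventually_forall_of_forall_eventually fun z hz => ?_
    have hc : Continuous fun p : ℝ × E (m + 1) => G (sc c p.2) - G p.2 - p.1 := by fun_prop
    have h2 : 0 < G (sc c z) - G z - 0 := by
      rw [sub_zero, hGg z (hb z hz.1), hGg _ (sc_mem h0.le h1.le (hb z hz.1)), sub_pos]
      refine hm _ (hb z hz.1) _ (sc_mem h0.le h1.le (hb z hz.1)) (by rw [sc_apply, tl_cn]) ?_
      rw [sc_apply, cn_zero]
      have h5 : z 0 ≤ -Ta := hz.2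
      have : z 0 < 0 := by linarith
      nlinarith
    filter_upwards [(hc.tendsto (0, z)).eventually_const_lt h2] with p hp
    linarith
  have e3 : ∀ᶠ μ : ℝ in 𝓝[>] 0, 0 < μ := self_mem_nhdsWithin
  obtain ⟨μ, hμ, h3, h4⟩ := (e3.and ((e1.and e2).filter_mono nhdsWithin_le_nhds)).exists
  exact ⟨μ, hμ, fun z hz h => (h3 z ⟨hz, h⟩).le, fun z hz h => (h4 z ⟨hz, h⟩).le⟩

theorem exdel {R2 T2 : ℝ} {G : E (m + 1) → ℝ} (hG : Continuous G) {O : Set (E (m + 1))}
    (hO : IsCompact O) {c : ℝ}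
    (hOs : ∀ z ∈ O ∩ box m R2 T2, ∀ᶠ y in 𝓝 (sc c z), ContDiffAt ℝ ∞ G y)
    {κ ν : ℝ} (hκ : 0 < κ) (hν : 0 < ν) :
    ∃ δ : ℝ, 0 < δ ∧ (∀ s : E (m + 1), ‖s‖ < 2 * δ → ∀ z ∈ box m R2 T2,
        |G (sc c z + s) - G (sc c z)| < ν) ∧
      ∀ s : E (m + 1), ‖s‖ < 2 * δ → ∀ z ∈ O ∩ box m R2 T2, DifferentiableAt ℝ G (sc c z + s) ∧
        ‖fderiv ℝ G (sc c z + s) - fderiv ℝ G (sc c z)‖ < κ := by
  have hsc : Continuous fun z : E (m + 1) => sc c z := (sc c).continuous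
  have e1 : ∀ᶠ s : E (m + 1) in 𝓝 0, ∀ z ∈ box m R2 T2, |G (sc c z + s) - G (sc c z)| < ν := by
    refine (isCompact_box R2 T2).eventually_forall_of_forall_eventually fun z _ => ?_
    have hc : Continuous fun p : E (m + 1) × E (m + 1) => |G (sc c p.2 + p.1) - G (sc c p.2)| := by
      fun_prop
    refine (hc.tendsto (0, z)).eventually_lt_const ?_
    simpa using hν
  have e2 : ∀ᶠ s : E (m + 1) in 𝓝 0, ∀ z ∈ O ∩ box m R2 T2, DifferentiableAt ℝ G (sc c z + s) ∧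
        ‖fderiv ℝ G (sc c z + s) - fderiv ℝ G (sc c z)‖ < κ := by
    have hK : IsCompact (O ∩ box m R2 T2) := hO.inter_right (isCompact_box R2 T2).isClosed
    refine hK.eventually_forall_of_forall_eventually fun z hz => ?_
    have h1 : Tendsto (fun p : E (m + 1) × E (m + 1) => sc c p.2 + p.1) (𝓝 (0, z))
        (𝓝 (sc c z)) := by
      have hc : Continuous fun p : E (m + 1) × E (m + 1) => sc c p.2 + p.1 := by fun_prop
      have := hc.tendsto (0, z)
      simpa only [add_zero] using this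
    have h1' : Tendsto (fun p : E (m + 1) × E (m + 1) => sc c p.2) (𝓝 (0, z))
        (𝓝 (sc c z)) := by
      have hc : Continuous fun p : E (m + 1) × E (m + 1) => sc c p.2 := by fun_prop
      exact hc.tendsto (0, z)
    have h2 : ContinuousAt (fderiv ℝ G) (sc c z) :=
      ((hOs z hz).self_of_nhds.fderiv_right (m := 0) (by simp)).continuousAt
    have h3 : Tendsto (fun p : E (m + 1) × E (m + 1) => fderiv ℝ G (sc c p.2 + p.1) -
        fderiv ℝ G (sc c p.2)) (𝓝 (0, z)) (𝓝 (fderiv ℝ G (sc c z) - fderiv ℝ G (sc c z))) :=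
      (h2.tendsto.comp h1).sub (h2.tendsto.comp h1')
    rw [sub_self] at h3
    refine (h1.eventually (hOs z hz)).mp ?_
    have h7 := h3.norm
    rw [norm_zero] at h7
    filter_upwards [h7.eventually_lt_const hκ] with p hp1 hp2
    exact ⟨hp2.differentiableAt (by simp), hp1⟩
  obtain ⟨δ, hδ, h⟩ := Metric.eventually_nhds_iff.1 (e1.and e2)
  refine ⟨δ / 2, half_pos hδ, fun s hs => ?_, fun s hs => ?_⟩
  · exact (h (by rw [dist_zero_right]; linarith)).1
  · exact (h (by rw [dist_zero_right]; linarith)).2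

/-- the smooth approximation -/
theorem exA {R T R2 T2 Ta : ℝ} (hR0 : 0 < R) (hR : R2 < R) (hTa : 0 < Ta)
    (hT2 : Ta < T2) (hT : T2 < T) {g : E (m + 1) → ℝ} (hg : ContinuousOn g (box m R T))
    (hm : ∀ z ∈ box m R T, ∀ z' ∈ box m R T, tl z = tl z' → z 0 < z' 0 → g z < g z')
    {O : Set (E (m + 1))} (hO : IsCompact O)
    (hOs : ∀ z ∈ O, ∀ᶠ y in 𝓝 z, ContDiffAt ℝ ∞ g y) {κ : ℝ} (hκ : 0 < κ) :
    ∃ A : E (m + 1) → ℝ, ContDiff ℝ ∞ A ∧ (∀ z, 0 < fderiv ℝ A z e0) ∧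
      (∀ z z' : E (m + 1), tl z = tl z' → z 0 < z' 0 → A z < A z') ∧
      (∀ z ∈ box m R2 T2, |A z - g z| ≤ κ) ∧
      (∀ z ∈ box m R2 T2, Ta ≤ z 0 → A z ≤ g z) ∧
      (∀ z ∈ box m R2 T2, z 0 ≤ -Ta → g z ≤ A z) ∧
      ∀ z ∈ O ∩ box m R2 T2, ‖fderiv ℝ A z - fderiv ℝ g z‖ ≤ κ := by
  have hT0 : 0 < T := by linarith
  obtain ⟨G, hG, hGg, hGm⟩ := extG hR0 hT0 hg hm
  have hκ4 : 0 < κ / 4 := by positivity
  obtain ⟨c, hc0, hc1, hc2, hc3⟩ := exc hR hT hG hGg hO hOs hκ4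
  obtain ⟨μ, hμ, hμ1, hμ2⟩ := exmu (R2 := R2) (T2 := T2) hR hTa hT hG hGg hm hc0 hc1
  have hν : 0 < min (κ / 4) (μ / 2) := lt_min hκ4 (half_pos hμ)
  obtain ⟨δ, hδ, hδ1, hδ2⟩ := exdel (R2 := R2) (T2 := T2) hG hO (fun z hz => (hc3 z hz).1) hκ4 hν
  obtain ⟨ε, hε, hε1, hε2, hε3⟩ : ∃ ε : ℝ, 0 < ε ∧ ε ≤ κ / 4 ∧ ε * T ≤ κ / 4 ∧ ε * T ≤ μ / 2 := by
    refine ⟨min (κ / 4) (min (κ / 4) (μ / 2) / T), lt_min hκ4 (div_pos hν hT0), min_le_left _ _,
      ?_, ?_⟩
    · calc _ ≤ (min (κ / 4) (μ / 2) / T) * T := mul_le_mul_of_nonneg_right (min_le_right _ _) hT0.le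
        _ = min (κ / 4) (μ / 2) := div_mul_cancel₀ _ hT0.ne'
        _ ≤ κ / 4 := min_le_left _ _
    · calc _ ≤ (min (κ / 4) (μ / 2) / T) * T := mul_le_mul_of_nonneg_right (min_le_right _ _) hT0.le
        _ = min (κ / 4) (μ / 2) := div_mul_cancel₀ _ hT0.ne'
        _ ≤ μ / 2 := min_le_right _ _
  have hb : ∀ z ∈ box m R2 T2, z ∈ box m R T := fun z hz => ⟨hz.1.trans hR.le, hz.2.trans hT.le⟩
  have hcs := cv_smooth (n := m + 1) hδ hG
  have hAs : ContDiff ℝ ∞ (fun z : E (m + 1) => cv δ hδ G (sc c z) + ε * z 0) :=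
    (hcs.comp (sc c).contDiff).add (contDiff_const.mul contDiff_head)
  have hmon : ∀ z z' : E (m + 1), tl z = tl z' → z 0 ≤ z' 0 →
      cv δ hδ G (sc c z) ≤ cv δ hδ G (sc c z') := by
    intro z z' h1 h2
    refine cv_mono hδ hG fun t => hGm _ _ ?_ ?_
    · rw [map_sub, map_sub, sc_apply, sc_apply, tl_cn, tl_cn, h1]
    · rw [sc_apply, sc_apply, PiLp.sub_apply, PiLp.sub_apply, cn_zero, cn_zero]
      nlinarith
  have hclose : ∀ z ∈ box m R2 T2, |cv δ hδ G (sc c z) - G (sc c z)| ≤ min (κ / 4) (μ / 2) := by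
    intro z hz
    refine cv_close hδ hG fun t ht => ?_
    have := hδ1 (-t) (by rw [norm_neg]; linarith) z hz
    rw [← sub_eq_add_neg] at this
    exact this.le
  have hz0 : ∀ z ∈ box m R2 T2, |ε * z 0| ≤ ε * T := by
    intro z hz
    rw [abs_mul, abs_of_pos hε]
    exact mul_le_mul_of_nonneg_left (hz.2.trans hT.le) hε.le
  refine ⟨fun z => cv δ hδ G (sc c z) + ε * z 0, hAs, ?_, ?_, ?_, ?_, ?_, ?_⟩
  · intro z
    have h1 : HasDerivAt (fun t : ℝ => cv δ hδ G (sc c (z + t • (e0 : E (m + 1)))) + ε * (z + t • (e0 : E (m + 1))) 0 - ε * t)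
        (fderiv ℝ (fun z : E (m + 1) => cv δ hδ G (sc c z) + ε * z 0) z e0 - ε * 1) 0 := by
      have h2 : HasDerivAt (fun t : ℝ => z + t • (e0 : E (m + 1))) e0 0 := by
        have := ((hasDerivAt_id (0 : ℝ)).smul_const (e0 : E (m + 1))).const_add z
        simpa using this
      have h3 : HasFDerivAt (fun z : E (m + 1) => cv δ hδ G (sc c z) + ε * z 0)
          (fderiv ℝ (fun z : E (m + 1) => cv δ hδ G (sc c z) + ε * z 0) z)
          (z + (0 : ℝ) • (e0 : E (m + 1))) := by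
        rw [zero_smul, add_zero]
        exact (hAs.differentiable (by simp) z).hasFDerivAt
      exact (h3.comp_hasDerivAt (0 : ℝ) h2).sub ((hasDerivAt_id (0 : ℝ)).const_mul ε)
    have h4 : Monotone (fun t : ℝ => cv δ hδ G (sc c (z + t • (e0 : E (m + 1)))) + ε * (z + t • (e0 : E (m + 1))) 0 -
        ε * t) := by
      intro s t hst
      have h5 : ∀ t : ℝ, (z + t • (e0 : E (m + 1))) 0 = z 0 + t := by
        intro t
        simp [e0]
      have h6 : ∀ t : ℝ, tl (z + t • (e0 : E (m + 1))) = tl z := by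
        intro t
        rw [map_add, map_smul]
        simp [e0]
      have h7 := hmon (z + s • (e0 : E (m + 1))) (z + t • (e0 : E (m + 1))) (by rw [h6, h6]) (by rw [h5, h5]; linarith)
      simp only [h5]
      linarith
    have h8 := h4.deriv_nonneg (x := (0 : ℝ))
    rw [h1.deriv] at h8
    linarith
  · intro z z' h1 h2
    have h3 := hmon z z' h1 h2.le
    have h4 := mul_lt_mul_of_pos_left h2 hε
    change cv δ hδ G (sc c z) + ε * z 0 < cv δ hδ G (sc c z') + ε * z' 0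
    linarith
  · intro z hz
    have h1 := (hclose z hz).trans (min_le_left _ _)
    have h2 := hc2 z hz
    have h3 := (hz0 z hz).trans hε2
    rw [← hGg z (hb z hz)]
    rw [abs_le] at h1 h3 ⊢
    rw [abs_lt] at h2
    constructor <;> linarith [h1.1, h1.2, h2.1, h2.2, h3.1, h3.2]
  · intro z hz h
    have h1 := (hclose z hz).trans (min_le_right _ _)
    have h2 := hμ1 z hz h
    have h3 := (hz0 z hz).trans hε3
    rw [← hGg z (hb z hz)]
    rw [abs_le] at h1 h3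
    change cv δ hδ G (sc c z) + ε * z 0 ≤ G z
    linarith [h1.1, h1.2, h3.1, h3.2]
  · intro z hz h
    have h1 := (hclose z hz).trans (min_le_right _ _)
    have h2 := hμ2 z hz h
    have h3 := (hz0 z hz).trans hε3
    rw [← hGg z (hb z hz)]
    rw [abs_le] at h1 h3
    change G z ≤ cv δ hδ G (sc c z) + ε * z 0
    linarith [h1.1, h1.2, h3.1, h3.2]
  · intro z hz
    have h1 : ‖fderiv ℝ (cv δ hδ G) (sc c z) - fderiv ℝ G (sc c z)‖ ≤ κ / 4 :=
      cv_fderiv hδ hG hκ4.le fun s hs => ⟨(hδ2 s hs z hz).1, (hδ2 s hs z hz).2.le⟩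
    have h2 := (hc3 z hz).2
    have h3 : HasFDerivAt (fun z : E (m + 1) => cv δ hδ G (sc c z) + ε * z 0)
        ((fderiv ℝ (cv δ hδ G) (sc c z)).comp (sc c) + ε • hd) z := by
      have h4 : HasFDerivAt (cv δ hδ G) (fderiv ℝ (cv δ hδ G) (sc c z)) (sc c z) :=
        (hcs.differentiable (by simp) _).hasFDerivAt
      have h5 := h4.comp z (sc c).hasFDerivAt
      have h6 : HasFDerivAt (fun z : E (m + 1) => ε * z 0) (ε • hd) z :=
        (hd (m := m)).hasFDerivAt.const_mul ε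
      exact h5.add h6
    rw [h3.fderiv]
    have h7 : (fderiv ℝ (cv δ hδ G) (sc c z)).comp (sc c) + ε • hd - fderiv ℝ g z =
        (fderiv ℝ (cv δ hδ G) (sc c z) - fderiv ℝ G (sc c z)).comp (sc c) +
          ((fderiv ℝ G (sc c z)).comp (sc c) - fderiv ℝ g z) + ε • hd := by
      rw [ContinuousLinearMap.sub_comp]
      abel
    rw [h7]
    have h8 : ‖(fderiv ℝ (cv δ hδ G) (sc c z) - fderiv ℝ G (sc c z)).comp (sc c)‖ ≤ κ / 4 := by
      refine (ContinuousLinearMap.opNorm_comp_le _ _).trans ?_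
      calc _ ≤ κ / 4 * 1 := mul_le_mul h1 (sc_norm hc0.le hc1.le) (norm_nonneg _) hκ4.le
        _ = κ / 4 := mul_one _
    have h9 : ‖ε • (hd : E (m + 1) →L[ℝ] ℝ)‖ ≤ κ / 4 := by
      rw [norm_smul, Real.norm_eq_abs, abs_of_pos hε]
      calc _ ≤ κ / 4 * 1 := mul_le_mul hε1 hd_norm (norm_nonneg _) hκ4.le
        _ = κ / 4 := mul_one _
    refine (norm_add₃_le).trans ?_
    linarith

end Pool.Agent.Y664.SH
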