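import Pool.Agent.Y664.SH.B3

/-!
# The blending lemma (project SH2)
-/

set_option autoImplicit false

open Set Filter Topology Metric Function MeasureTheory
open scoped ContDiff

noncomputable section

namespace Pool.Agent.Y664.SH

open Pool.Agent.Y522

variable {m : ℕ}

lemma W_one {r s t t' : ℝ} (hr : 0 < r) (hrs : r < s) (ht : 0 < t) (htt : t < t')
    {z : E (m + 1)} (h1 : ‖tl z‖ ≤ r) (h2 : |z 0| ≤ t) : W r s t t' z = 1 := by
  unfold W
  rw [cut_one hr hrs (pow_le_pow_left₀ (norm_nonneg _) h1 2), cut_one ht htt, mul_one]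
  rw [← sq_abs]
  exact pow_le_pow_left₀ (abs_nonneg _) h2 2

lemma W_zero {r s t t' : ℝ} (hr : 0 < r) (hrs : r < s) (ht : 0 < t) (htt : t < t')
    {z : E (m + 1)} (h : s ≤ ‖tl z‖ ∨ t' ≤ |z 0|) : W r s t t' z = 0 := by
  unfold W
  rcases h with h | h
  · rw [cut_zero hr hrs (pow_le_pow_left₀ (by linarith) h 2), mul_zero]
  · rw [cut_zero ht htt, zero_mul]
    rw [← sq_abs (z 0)]
    exact pow_le_pow_left₀ (by linarith) h 2

theorem blend : StBlend := by
  intro m R R₁ T T₁ hR₁ hR hT₁ hT g hg hm O hO _ hOs η hη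
  set R2 := (R + R₁) / 2 with hR2
  set T2 := (T + T₁) / 2 with hT2
  obtain ⟨Ra, hRa1, hRa2⟩ : ∃ Ra, R₁ < Ra ∧ Ra < R2 := exists_between (by linarith)
  obtain ⟨Ta, hTa1, hTa2⟩ : ∃ Ta, T₁ < Ta ∧ Ta < T2 := exists_between (by linarith)
  have hR2R : R2 < R := by linarith
  have hT2T : T2 < T := by linarith
  have hRa : 0 < Ra := by linarith
  have hTa : 0 < Ta := by linarith
  have hWs : ContDiff ℝ ∞ (W (m := m) Ra R2 Ta T2) := W_smooth
  obtain ⟨M, hM⟩ : ∃ M : ℝ, ∀ z ∈ box m R2 T2, ‖fderiv ℝ (W (m := m) Ra R2 Ta T2) z‖ ≤ M := by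
    obtain ⟨M, hM⟩ := (isCompact_box (m := m) R2 T2).exists_bound_of_continuousOn
      (f := fderiv ℝ (W (m := m) Ra R2 Ta T2)) (hWs.continuous_fderiv (by simp)).continuousOn
    exact ⟨M, hM⟩
  obtain ⟨κ, hκ, hκ1, hκ2⟩ : ∃ κ : ℝ, 0 < κ ∧ κ ≤ η / 2 ∧ κ * |M| ≤ η / 2 := by
    refine ⟨min (η / 2) (η / 2 / (|M| + 1)), lt_min (half_pos hη)
      (div_pos (half_pos hη) (by positivity)), min_le_left _ _, ?_⟩
    have h1 : 0 < |M| + 1 := by positivity
    calc _ ≤ η / 2 / (|M| + 1) * |M| := mul_le_mul_of_nonneg_right (min_le_right _ _) (abs_nonneg _)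
      _ ≤ η / 2 / (|M| + 1) * (|M| + 1) := mul_le_mul_of_nonneg_left (by linarith) (by positivity)
      _ = η / 2 := div_mul_cancel₀ _ h1.ne'
  obtain ⟨A, hA, hAe, hAm, hAc, hA1, hA2, hAO⟩ :=
    exA (R2 := R2) (T2 := T2) (by linarith) hR2R hTa hTa2 hT2T hg hm hO hOs hκ
  have hout : ∀ z : E (m + 1), z ∉ box m R2 T2 → W Ra R2 Ta T2 z = 0 := by
    intro z hz
    refine W_zero hRa hRa2 hTa hTa2 ?_
    by_contra h
    rw [not_or, not_le, not_le] at h
    exact hz ⟨h.1.le, h.2.le⟩
  have hclos : IsClosed (box m R2 T2) := (isCompact_box R2 T2).isClosed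
  -- derivative formula
  have hder : ∀ z : E (m + 1), DifferentiableAt ℝ g z →
      HasFDerivAt (fun z => g z + W Ra R2 Ta T2 z * (A z - g z))
        (fderiv ℝ g z + (W Ra R2 Ta T2 z • (fderiv ℝ A z - fderiv ℝ g z) +
          (A z - g z) • fderiv ℝ (W Ra R2 Ta T2) z)) z := by
    intro z hz
    have h1 := (hWs.differentiable (by simp) z).hasFDerivAt
    have h2 := (hA.differentiable (by simp) z).hasFDerivAt
    exact hz.hasFDerivAt.add (h1.mul (h2.sub hz.hasFDerivAt))
  refine ⟨fun z => g z + W Ra R2 Ta T2 z * (A z - g z), ?_, ?_, ?_, ?_, ?_, ?_, ?_⟩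
  · intro z hz
    simp [hout z hz]
  · exact hg.add (hWs.continuous.continuousOn.mul (hA.continuous.continuousOn.sub hg))
  · intro z hz z' hz' h1 h2
    rcases le_or_gt R2 ‖tl z‖ with h | h
    · have e1 : W Ra R2 Ta T2 z = 0 := W_zero hRa hRa2 hTa hTa2 (Or.inl h)
      have e2 : W Ra R2 Ta T2 z' = 0 := W_zero hRa hRa2 hTa hTa2 (Or.inl (h1 ▸ h))
      simp only [e1, e2, zero_mul, add_zero]
      exact hm z hz z' hz' h1 h2
    · have hin : ∀ t ∈ Icc (-T) T, cn t (tl z) ∈ box m R T := fun t ht =>
        ⟨by rw [tl_cn]; exact hz.1, by rw [cn_zero]; exact abs_le.2 ht⟩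
      have hin2 : ∀ t ∈ Icc (-T2) T2, cn t (tl z) ∈ box m R2 T2 := fun t ht =>
        ⟨by rw [tl_cn]; exact h.le, by rw [cn_zero]; exact abs_le.2 ht⟩
      have key := mono1 (T := T) hTa hTa2 hT2T (u := fun t => g (cn t (tl z)))
        (v := fun t => A (cn t (tl z))) (om := fun t => W Ra R2 Ta T2 (cn t (tl z)))
        (fun s hs t ht hst => hm _ (hin s hs) _ (hin t ht) (by rw [tl_cn, tl_cn]) hst)
        (fun s _ t _ hst => hAm _ _ (by rw [tl_cn, tl_cn]) hst)
        (fun t => W_mem _)
        (fun s t hs hst => by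
          unfold W
          refine mul_le_mul_of_nonneg_right ?_ ?_
          · rw [cn_zero, cn_zero]
            exact cut_anti hTa hTa2 (pow_le_pow_left₀ hs hst 2)
          · rw [tl_cn]; exact (cut_mem _).1)
        (fun s t ht hst => by
          unfold W
          refine mul_le_mul_of_nonneg_right ?_ ?_
          · rw [cn_zero, cn_zero]
            refine cut_anti hTa hTa2 ?_
            nlinarith
          · rw [tl_cn]; exact (cut_mem _).1)
        (fun t ht => by
          unfold W
          rw [cn_zero, cn_zero, tl_cn, tl_cn, cut_one hTa hTa2, cut_one hTa hTa2 (t := 0 ^ 2)]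
          · nlinarith
          · rw [← sq_abs t]
            exact pow_le_pow_left₀ (abs_nonneg _) ht 2)
        (fun t ht => W_zero hRa hRa2 hTa hTa2 (Or.inr ht))
        (fun t ht ht' => hA1 _ (hin2 t ⟨by linarith, ht'⟩) ht)
        (fun t ht ht' => hA2 _ (hin2 t ⟨ht, by linarith⟩) ht')
      have h3 := key (abs_le.1 hz.2) (abs_le.1 hz'.2) h2
      dsimp only at h3
      rw [cn_tl z, h1, cn_tl z'] at h3
      exact h3
  · intro z hz
    have h1 : (fun z => g z + W Ra R2 Ta T2 z * (A z - g z)) =ᶠ[𝓝 z] A := by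
      filter_upwards [near_box hRa1 hTa1 hz] with y hy
      rw [W_one hRa hRa2 hTa hTa2 hy.1 hy.2]
      ring
    refine ⟨?_, ?_⟩
    · filter_upwards [h1.eventuallyEq_nhds] with y hy
      exact hA.contDiffAt.congr_of_eventuallyEq hy
    · rw [h1.fderiv_eq]
      exact hAe z
  · intro z hz hgs
    refine ⟨?_, ?_⟩
    · filter_upwards [hgs] with y hy
      exact hy.add (hWs.contDiffAt.mul (hA.contDiffAt.sub hy))
    · intro hpos
      by_cases hzb : z ∈ box m R2 T2
      · rw [(hder z (hgs.self_of_nhds.differentiableAt (by simp))).fderiv]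
        have hW0 : 0 ≤ (A z - g z) * fderiv ℝ (W (m := m) Ra R2 Ta T2) z e0 := by
          -- the derivative of the cutoff in the first direction
          have h1 : HasDerivAt (fun t : ℝ => W (m := m) Ra R2 Ta T2 (z + t • e0))
              (fderiv ℝ (W (m := m) Ra R2 Ta T2) z e0) 0 := by
            have h2 : HasDerivAt (fun t : ℝ => z + t • (e0 : E (m + 1))) e0 0 := by
              have := ((hasDerivAt_id (0 : ℝ)).smul_const (e0 : E (m + 1))).const_add z
              simpa using this
            have h3 : HasFDerivAt (W (m := m) Ra R2 Ta T2) (fderiv ℝ (W (m := m) Ra R2 Ta T2) z)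
                (z + (0 : ℝ) • (e0 : E (m + 1))) := by
              rw [zero_smul, add_zero]
              exact (hWs.differentiable (by simp) z).hasFDerivAt
            exact h3.comp_hasDerivAt (0 : ℝ) h2
          have h5 : ∀ t : ℝ, (z + t • (e0 : E (m + 1))) 0 = z 0 + t := by
            intro t
            simp [e0]
          have h6 : ∀ t : ℝ, tl (z + t • (e0 : E (m + 1))) = tl z := by
            intro t
            rw [map_add, map_smul]
            simp [e0]
          have h7 : (fun t : ℝ => W (m := m) Ra R2 Ta T2 (z + t • e0)) =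
              fun t : ℝ => cut Ta T2 ((z 0 + t) ^ 2) * cut Ra R2 (‖tl z‖ ^ 2) := by
            funext t
            unfold W
            rw [h5, h6]
          rw [h7] at h1
          have ha : 0 ≤ cut Ra R2 (‖tl z‖ ^ 2) := (cut_mem _).1
          have hcd : HasDerivAt (cut Ta T2) (deriv (cut Ta T2) ((z 0) ^ 2)) ((z 0 + 0) ^ 2) := by
            rw [add_zero]
            exact (cut_smooth.differentiable (by simp) _).hasDerivAt
          have hsq : HasDerivAt (fun t : ℝ => (z 0 + t) ^ 2) (2 * z 0) 0 := by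
            have h12 : HasDerivAt (fun t : ℝ => z 0 + t) 1 0 := (hasDerivAt_id (0 : ℝ)).const_add (z 0)
            have h13 := h12.fun_pow 2
            simpa using h13
          have h8 := (hcd.comp (0 : ℝ) hsq).mul_const (cut Ra R2 (‖tl z‖ ^ 2))
          rw [h1.unique h8]
          have hneg : deriv (cut Ta T2) ((z 0) ^ 2) ≤ 0 := by
            have : Antitone (cut Ta T2) := fun s t hst => cut_anti hTa hTa2 hst
            exact this.deriv_nonpos
          rcases lt_or_ge |z 0| Ta with h | h
          · -- the cutoff is constant near `z` along the line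
            have h9 : deriv (cut Ta T2) ((z 0) ^ 2) = 0 := by
              have h10 : cut Ta T2 =ᶠ[𝓝 ((z 0) ^ 2)] fun _ => 1 := by
                have h11 : (z 0) ^ 2 < Ta ^ 2 := by
                  rw [← sq_abs]
                  exact pow_lt_pow_left₀ h (abs_nonneg _) (by norm_num)
                filter_upwards [gt_mem_nhds h11] with y hy
                exact cut_one hTa hTa2 hy.le
              rw [h10.deriv_eq, deriv_const]
            rw [h9]
            simp
          · rcases le_abs.1 h with h' | h'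
            · have hAg : A z - g z ≤ 0 := sub_nonpos.2 (hA1 z hzb h')
              refine mul_nonneg_of_nonpos_of_nonpos hAg ?_
              exact mul_nonpos_of_nonpos_of_nonneg (mul_nonpos_of_nonpos_of_nonneg hneg
                (by linarith)) ha
            · have hAg : 0 ≤ A z - g z := sub_nonneg.2 (hA2 z hzb (by linarith))
              exact mul_nonneg hAg (mul_nonneg (mul_nonneg_of_nonpos_of_nonpos hneg
                (by linarith)) ha)
        have h1 := W_mem (r := Ra) (s := R2) (t := Ta) (t' := T2) z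
        have h2 := hAe z
        have e1 : (fderiv ℝ g z + (W Ra R2 Ta T2 z • (fderiv ℝ A z - fderiv ℝ g z) +
            (A z - g z) • fderiv ℝ (W Ra R2 Ta T2) z)) e0 =
            (1 - W Ra R2 Ta T2 z) * fderiv ℝ g z e0 + W Ra R2 Ta T2 z * fderiv ℝ A z e0 +
              (A z - g z) * fderiv ℝ (W (m := m) Ra R2 Ta T2) z e0 := by
          change fderiv ℝ g z e0 + (W Ra R2 Ta T2 z * (fderiv ℝ A z e0 - fderiv ℝ g z e0) +
            (A z - g z) * fderiv ℝ (W Ra R2 Ta T2) z e0) = _
          ring
        rw [e1]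
        have e2 : 0 < (1 - W Ra R2 Ta T2 z) * fderiv ℝ g z e0 + W Ra R2 Ta T2 z * fderiv ℝ A z e0 := by
          rcases h1.1.eq_or_lt with h | h
          · rw [← h]; simpa using hpos
          · have := mul_pos h h2
            have := mul_nonneg (sub_nonneg.2 h1.2) hpos.le
            linarith
        linarith
      · have h1 : (fun z => g z + W Ra R2 Ta T2 z * (A z - g z)) =ᶠ[𝓝 z] g := by
          filter_upwards [hclos.isOpen_compl.mem_nhds hzb] with y hy
          rw [hout y hy]
          ring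
        rw [h1.fderiv_eq]
        exact hpos
  · intro z hz
    have e1 : g z + W Ra R2 Ta T2 z * (A z - g z) - g z = W Ra R2 Ta T2 z * (A z - g z) := by ring
    rw [e1, abs_mul, abs_of_nonneg (W_mem z).1]
    by_cases hzb : z ∈ box m R2 T2
    · calc _ ≤ 1 * κ := mul_le_mul (W_mem z).2 (hAc z hzb) (abs_nonneg _) zero_le_one
        _ ≤ η := by linarith
    · rw [hout z hzb, zero_mul]
      exact hη.le
  · intro z hz
    by_cases hzb : z ∈ box m R2 T2
    · rw [(hder z ((hOs z hz).self_of_nhds.differentiableAt (by simp))).fderiv, add_sub_cancel_left]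
      refine (norm_add_le _ _).trans ?_
      rw [norm_smul, norm_smul, Real.norm_eq_abs, Real.norm_eq_abs, abs_of_nonneg (W_mem z).1]
      have h1 : W Ra R2 Ta T2 z * ‖fderiv ℝ A z - fderiv ℝ g z‖ ≤ 1 * κ :=
        mul_le_mul (W_mem z).2 (hAO z ⟨hz, hzb⟩) (norm_nonneg _) zero_le_one
      have h2 : |A z - g z| * ‖fderiv ℝ (W (m := m) Ra R2 Ta T2) z‖ ≤ κ * |M| :=
        mul_le_mul (hAc z hzb) ((hM z hzb).trans (le_abs_self M)) (norm_nonneg _) hκ.le
      linarith
    · have h1 : (fun z => g z + W Ra R2 Ta T2 z * (A z - g z)) =ᶠ[𝓝 z] g := by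
        filter_upwards [hclos.isOpen_compl.mem_nhds hzb] with y hy
        rw [hout y hy]
        ring
      rw [h1.fderiv_eq, sub_self, norm_zero]
      exact hη.le

end Pool.Agent.Y664.SH
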